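import Mathlib
import Pool.Agent.Helper540.Core

set_option autoImplicit false

namespace Pool.Agent.Results.MP_10a7b3_an.NoContinuous

open Metric Set Filter Topology MeasureTheory

/-- The class `M` of the unit ball of `ℂ²`: holomorphic `h` with `h(0) = 0`, `dh_0 = id` and
`Re ⟨h(z), z⟩ > 0` for `z ≠ 0`.  Maps on the ball are represented by total functions. -/
def classM : Set (EuclideanSpace ℂ (Fin 2) → EuclideanSpace ℂ (Fin 2)) :=
  {h | DifferentiableOn ℂ h (ball 0 1) ∧ h 0 = 0 ∧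
    fderiv ℂ h 0 = ContinuousLinearMap.id ℂ (EuclideanSpace ℂ (Fin 2)) ∧
    ∀ z ∈ ball (0 : EuclideanSpace ℂ (Fin 2)) 1, z ≠ 0 → 0 < (inner ℂ z (h z)).re}

/-- The class `-M`. -/
def negM : Set (EuclideanSpace ℂ (Fin 2) → EuclideanSpace ℂ (Fin 2)) :=
  {g | (fun z => -(g z)) ∈ classM}

/-- `G` is a Herglotz vector field associated with `M`: `G(z, ·)` is (Lebesgue) measurable on
`[0, ∞)` for every `z` in the ball, and `G(·, t) ∈ -M` for almost every `t ≥ 0`. -/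
def IsHerglotzField
    (G : EuclideanSpace ℂ (Fin 2) → ℝ → EuclideanSpace ℂ (Fin 2)) : Prop :=
  (∀ z ∈ ball (0 : EuclideanSpace ℂ (Fin 2)) 1,
    AEMeasurable (fun t : ℝ => G z t) (volume.restrict (Ici 0))) ∧
  ∀ᵐ t : ℝ ∂(volume.restrict (Ici 0)), (fun z => G z t) ∈ negM

/-- `F = (F_t)` is a normal Loewner chain: `F_t` is univalent on the ball, `F_t(0) = 0`,
`d(F_t)_0 = e^t id`, the images increase, and `{e^{-t} F_t}` is a normal family (that is, locally
uniformly bounded, by Montel's theorem). -/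
structure IsNormalLoewnerChain
    (F : ℝ → EuclideanSpace ℂ (Fin 2) → EuclideanSpace ℂ (Fin 2)) : Prop where
  holo : ∀ t : ℝ, 0 ≤ t → DifferentiableOn ℂ (F t) (ball 0 1)
  inj : ∀ t : ℝ, 0 ≤ t → InjOn (F t) (ball 0 1)
  zero : ∀ t : ℝ, 0 ≤ t → F t 0 = 0
  deriv : ∀ t : ℝ, 0 ≤ t → fderiv ℂ (F t) 0 =
    ((Real.exp t : ℝ) : ℂ) • ContinuousLinearMap.id ℂ (EuclideanSpace ℂ (Fin 2))
  sub : ∀ s t : ℝ, 0 ≤ s → s ≤ t → F s '' ball 0 1 ⊆ F t '' ball 0 1
  normal : ∀ r : ℝ, r < 1 → ∃ M : ℝ, ∀ t : ℝ, 0 ≤ t →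
    ∀ z : EuclideanSpace ℂ (Fin 2), ‖z‖ ≤ r → ‖F t z‖ ≤ M * Real.exp t

/-- `G` generates the chain `F`: `∂F_t(z)/∂t = -d(F_t)_z G(z,t)` for every `z` in the ball and
almost every `t ≥ 0` (the exceptional set is even allowed to depend on `z`). -/
def Generates (G : EuclideanSpace ℂ (Fin 2) → ℝ → EuclideanSpace ℂ (Fin 2))
    (F : ℝ → EuclideanSpace ℂ (Fin 2) → EuclideanSpace ℂ (Fin 2)) : Prop :=
  ∀ z ∈ ball (0 : EuclideanSpace ℂ (Fin 2)) 1, ∀ᵐ t : ℝ ∂(volume.restrict (Ici 0)),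
    HasDerivAt (fun s : ℝ => F s z) (-(fderiv ℂ (F t) z (G z t))) t

/-- The class `S⁰`: the initial maps of normal Loewner chains. -/
def classS0 : Set (EuclideanSpace ℂ (Fin 2) → EuclideanSpace ℂ (Fin 2)) :=
  {f | ∃ F : ℝ → EuclideanSpace ℂ (Fin 2) → EuclideanSpace ℂ (Fin 2),
    IsNormalLoewnerChain F ∧ ∀ z ∈ ball (0 : EuclideanSpace ℂ (Fin 2)) 1, F 0 z = f z}

/-- `L` is a continuous (complex) linear functional on the space of holomorphic maps of the ball
with the topology of locally uniform convergence. -/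
def IsContLinFunctional
    (L : (EuclideanSpace ℂ (Fin 2) → EuclideanSpace ℂ (Fin 2)) → ℂ) : Prop :=
  (∀ g₁ g₂ : EuclideanSpace ℂ (Fin 2) → EuclideanSpace ℂ (Fin 2),
    DifferentiableOn ℂ g₁ (ball 0 1) → DifferentiableOn ℂ g₂ (ball 0 1) →
    ∀ a b : ℂ, L (a • g₁ + b • g₂) = a * L g₁ + b * L g₂) ∧
  ∃ K : Set (EuclideanSpace ℂ (Fin 2)), K ⊆ ball 0 1 ∧ IsCompact K ∧ ∃ C : ℝ,
    ∀ g : EuclideanSpace ℂ (Fin 2) → EuclideanSpace ℂ (Fin 2),
      DifferentiableOn ℂ g (ball 0 1) → ∀ M : ℝ, 0 ≤ M → (∀ z ∈ K, ‖g z‖ ≤ M) → ‖L g‖ ≤ C * M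

/-- The support points of `K`. -/
def Supp (K : Set (EuclideanSpace ℂ (Fin 2) → EuclideanSpace ℂ (Fin 2))) :
    Set (EuclideanSpace ℂ (Fin 2) → EuclideanSpace ℂ (Fin 2)) :=
  {f | f ∈ K ∧ ∃ L : (EuclideanSpace ℂ (Fin 2) → EuclideanSpace ℂ (Fin 2)) → ℂ,
    IsContLinFunctional L ∧ (∃ g₁ ∈ K, ∃ g₂ ∈ K, L g₁ ≠ L g₂) ∧ ∀ g ∈ K, (L g).re ≤ (L f).re}

/-- `t ↦ G(·, t)`, `t ≥ 0`, is continuous for locally uniform convergence on the ball. -/
def ContinuousInTime
    (G : EuclideanSpace ℂ (Fin 2) → ℝ → EuclideanSpace ℂ (Fin 2)) : Prop :=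
  ∀ t₀ : ℝ, 0 ≤ t₀ → TendstoLocallyUniformlyOn (fun (t : ℝ) z => G z t) (fun z => G z t₀)
    (𝓝[Ici 0] t₀) (ball 0 1)

/-- The property asked for in Q1 of a map `f`: some Herglotz vector field associated with `M`
generates a normal Loewner chain starting at `f`, is continuous in `t` and takes its values in
`Supp (-M)` for every `t ≥ 0`. -/
def HasContinuousSupportField
    (f : EuclideanSpace ℂ (Fin 2) → EuclideanSpace ℂ (Fin 2)) : Prop :=
  ∃ (G : EuclideanSpace ℂ (Fin 2) → ℝ → EuclideanSpace ℂ (Fin 2))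
    (F : ℝ → EuclideanSpace ℂ (Fin 2) → EuclideanSpace ℂ (Fin 2)),
    IsHerglotzField G ∧ IsNormalLoewnerChain F ∧
    (∀ z ∈ ball (0 : EuclideanSpace ℂ (Fin 2)) 1, F 0 z = f z) ∧ Generates G F ∧
    ContinuousInTime G ∧ ∀ t : ℝ, 0 ≤ t → (fun z => G z t) ∈ Supp negM

section Aux

open Pool.Agent.Helper540

theorem lc_of {F : ℝ → EuclideanSpace ℂ (Fin 2) → EuclideanSpace ℂ (Fin 2)}
    (hF : IsNormalLoewnerChain F) : LC F :=
  ⟨hF.holo, hF.inj, hF.zero, hF.deriv, hF.sub, hF.normal⟩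

theorem of_lc {F : ℝ → EuclideanSpace ℂ (Fin 2) → EuclideanSpace ℂ (Fin 2)}
    (hF : LC F) : IsNormalLoewnerChain F :=
  ⟨hF.holo, hF.inj, hF.zero, hF.deriv, hF.sub, hF.bdd⟩

theorem cara_of {h : EuclideanSpace ℂ (Fin 2) → EuclideanSpace ℂ (Fin 2)} (hh : h ∈ classM) :
    Cara h :=
  ⟨hh.1, hh.2.1, hh.2.2.1, hh.2.2.2⟩

theorem linFunc : IsContLinFunctional (fun g => (qf g (pt 1 0)) 0) := by
  refine ⟨?_, closedBall 0 (1 / 2), closedBall_subset_ball (by norm_num),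
    isCompact_closedBall _ _, 4, ?_⟩
  · intro g1 g2 h1 h2 a b
    have hu := norm_pt_one_zero.le
    have c1 := contDiffAt_of_ball one_pos (slice_diff h1 hu) 2
    have c2 := contDiffAt_of_ball one_pos (slice_diff h2 hu) 2
    have e1 : qf (a • g1 + b • g2) (pt 1 0) = a • qf g1 (pt 1 0) + b • qf g2 (pt 1 0) := by
      simp only [qf]
      have e2 : (fun ζ : ℂ => (a • g1 + b • g2) (ζ • pt 1 0)) =
          fun ζ : ℂ => a • g1 (ζ • pt 1 0) + b • g2 (ζ • pt 1 0) := by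
        ext1 ζ
        simp
      rw [e2, tc_add 2 (c1.const_smul a) (c2.const_smul b)]
      have hs : ∀ (c : ℂ) (f : ℂ → EuclideanSpace ℂ (Fin 2)), ContDiffAt ℂ 2 f 0 →
          tc 2 (fun ζ => c • f ζ) = c • tc 2 f := by
        intro c f hf
        have := tc_clm (c • ContinuousLinearMap.id ℂ (EuclideanSpace ℂ (Fin 2))) 2 hf
        simpa using this
      rw [hs a _ c1, hs b _ c2]
    show (qf (a • g1 + b • g2) (pt 1 0)) 0 = a * (qf g1 (pt 1 0)) 0 + b * (qf g2 (pt 1 0)) 0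
    rw [e1]
    simp
  · intro g hg M hM0 hM
    have h1 : ‖qf g (pt 1 0)‖ ≤ M / (1 / 2) ^ 2 :=
      norm_tc_two_le hg norm_pt_one_zero.le (by norm_num) (by norm_num)
        (fun z hz => hM z (by simpa using hz))
    have h2 : ‖(qf g (pt 1 0)) 0‖ ≤ ‖qf g (pt 1 0)‖ := norm_apply_le_two _ 0
    have h3 : M / (1 / 2) ^ 2 = 4 * M := by ring
    rw [h3] at h1
    exact h2.trans h1

/-- The trivial chain. -/
theorem trivial_chain : IsNormalLoewnerChain
    (fun t z => ((Real.exp t : ℝ) : ℂ) • z) where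
  holo := fun t _ => by fun_prop
  inj := fun t _ => by
    intro x _ y _ hxy
    have hne : ((Real.exp t : ℝ) : ℂ) ≠ 0 := by exact_mod_cast (Real.exp_pos t).ne'
    exact smul_right_injective _ hne hxy
  zero := fun t _ => smul_zero _
  deriv := fun t _ => by
    have h1 : HasFDerivAt (fun z : EuclideanSpace ℂ (Fin 2) => ((Real.exp t : ℝ) : ℂ) • z)
        (((Real.exp t : ℝ) : ℂ) • ContinuousLinearMap.id ℂ (EuclideanSpace ℂ (Fin 2))) 0 :=
      (hasFDerivAt_id _).fun_const_smul _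
    exact h1.fderiv
  sub := fun s t hs hst => by
    rintro _ ⟨z, hz, rfl⟩
    refine ⟨((Real.exp (s - t) : ℝ) : ℂ) • z, ?_, ?_⟩
    · rw [mem_ball_zero_iff] at *
      rw [norm_smul, Complex.norm_real, Real.norm_of_nonneg (Real.exp_pos _).le]
      have h1 : Real.exp (s - t) ≤ 1 := by rw [Real.exp_le_one_iff]; linarith
      calc _ ≤ 1 * ‖z‖ := by gcongr
        _ < 1 := by linarith
    · show ((Real.exp t : ℝ) : ℂ) • ((Real.exp (s - t) : ℝ) : ℂ) • z = _
      rw [smul_smul, ← Complex.ofReal_mul, ← Real.exp_add]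
      congr 4
      ring
  normal := fun r hr => by
    refine ⟨1, fun t ht z hz => ?_⟩
    rw [norm_smul, Complex.norm_real, Real.norm_of_nonneg (Real.exp_pos _).le, one_mul]
    calc Real.exp t * ‖z‖ ≤ Real.exp t * 1 := by gcongr; linarith
      _ = Real.exp t := mul_one _

theorem L_le {g : EuclideanSpace ℂ (Fin 2) → EuclideanSpace ℂ (Fin 2)} (hg : g ∈ classS0) :
    ((qf g (pt 1 0)) 0).re ≤ 2 := by
  obtain ⟨F, hF, h0⟩ := hg
  have h1 := (qf_le (lc_of hF) (le_refl (0 : ℝ))).1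
  rw [qf_congr h0 norm_pt_one_zero.le] at h1
  simpa using h1

theorem Fc_mem : Fc 0 ∈ classS0 := ⟨Fc, of_lc Fc_LC, fun _ _ => rfl⟩

theorem Fc_supp : Fc 0 ∈ Supp classS0 := by
  refine ⟨Fc_mem, fun g => (qf g (pt 1 0)) 0, linFunc, ?_, ?_⟩
  · refine ⟨Fc 0, Fc_mem, fun z => z, ⟨_, trivial_chain, fun z _ => by simp⟩, ?_⟩
    have h1 : qf (fun z => z) (pt 1 0) = 0 := by
      have h2 := tc_pow_smul 2 1 (pt 1 0)
      simpa [qf] using h2
    simp only [h1, Fc_qf_left]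
    simp
  · intro g hg
    have h1 := L_le hg
    simp only [Fc_qf_left]
    simpa using h1

/-- The conversion of a continuous Herglotz field into a `Gen`. -/
theorem gen_of {G : EuclideanSpace ℂ (Fin 2) → ℝ → EuclideanSpace ℂ (Fin 2)}
    {F : ℝ → EuclideanSpace ℂ (Fin 2) → EuclideanSpace ℂ (Fin 2)}
    (hG : IsHerglotzField G) (hF : IsNormalLoewnerChain F) (hgen : Generates G F)
    (hcont : ContinuousInTime G) : Gen F (fun t z => -(G z t)) := by
  have hc : ∀ t₀ : ℝ, 0 ≤ t₀ → TendstoLocallyUniformlyOn (fun (t : ℝ) z => -(G z t))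
      (fun z => -(G z t₀)) (𝓝[Ici 0] t₀) (ball 0 1) := by
    intro t₀ ht₀
    have h1 := hcont t₀ ht₀
    rw [Metric.tendstoLocallyUniformlyOn_iff] at h1 ⊢
    intro ε hε x hx
    obtain ⟨t, ht, h2⟩ := h1 ε hε x hx
    refine ⟨t, ht, h2.mono (fun n hn y hy => ?_)⟩
    rw [dist_neg_neg]
    exact hn y hy
  refine ⟨lc_of hF, ?_, hc, ?_⟩
  · intro t₀ ht₀
    have hgood := hG.2
    rw [ae_restrict_iff' measurableSet_Ici] at hgood
    have hex : ∀ n : ℕ, ∃ t ∈ Ioo t₀ (t₀ + 1 / ((n : ℝ) + 1)), (fun z => G z t) ∈ negM := by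
      intro n
      have hn : (0 : ℝ) < 1 / ((n : ℝ) + 1) := by positivity
      by_contra hcon
      push Not at hcon
      have h1 : Ioo t₀ (t₀ + 1 / ((n : ℝ) + 1)) ⊆
          {t : ℝ | ¬ (t ∈ Ici 0 → (fun z => G z t) ∈ negM)} := by
        intro t ht h2
        exact hcon t ht (h2 (ht₀.trans ht.1.le))
      have h3 := measure_mono_null h1 (ae_iff.1 hgood)
      rw [Real.volume_Ioo] at h3
      have h4 : (0 : ℝ) < t₀ + 1 / ((n : ℝ) + 1) - t₀ := by linarith
      exact absurd h3 (by simpa using h4)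
    choose τ hτ hτM using hex
    have hlim : Tendsto τ atTop (𝓝 t₀) := by
      have h1 : Tendsto (fun n : ℕ => t₀ + 1 / ((n : ℝ) + 1)) atTop (𝓝 (t₀ + 0)) :=
        tendsto_const_nhds.add tendsto_one_div_add_atTop_nhds_zero_nat
      rw [add_zero] at h1
      exact tendsto_of_tendsto_of_tendsto_of_le_of_le tendsto_const_nhds h1
        (fun n => (hτ n).1.le) (fun n => (hτ n).2.le)
    have hlim' : Tendsto τ atTop (𝓝[Ici 0] t₀) :=
      tendsto_nhdsWithin_of_tendsto_nhds_of_eventually_within _ hlim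
        (Eventually.of_forall fun n => ht₀.trans (hτ n).1.le)
    apply Cara.of_tendsto (h := fun n z => -(G z (τ n)))
    · intro n
      exact cara_of (hτM n)
    · intro u hu x hx
      obtain ⟨t, ht, h2⟩ := hc t₀ ht₀ u hu x hx
      exact ⟨t, ht, hlim'.eventually h2⟩
  · intro z hz
    have h1 := hgen z hz
    rw [ae_restrict_iff' measurableSet_Ici] at h1
    filter_upwards [h1] with t ht ht0
    have h2 := ht ht0.le
    rw [← map_neg] at h2
    exact h2

end Aux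

/-- Q1 has a negative answer.  There is a support point `f` of `S⁰` such that no Herglotz vector
field associated with `M` that generates a normal Loewner chain starting at `f` is continuous in
`t`; in particular it is not true that every support point of `S⁰` has the property asked for in
Q1. -/
theorem result :
    (∃ f ∈ Supp classS0,
      ∀ (G : EuclideanSpace ℂ (Fin 2) → ℝ → EuclideanSpace ℂ (Fin 2))
        (F : ℝ → EuclideanSpace ℂ (Fin 2) → EuclideanSpace ℂ (Fin 2)),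
        IsHerglotzField G → IsNormalLoewnerChain F →
        (∀ z ∈ ball (0 : EuclideanSpace ℂ (Fin 2)) 1, F 0 z = f z) → Generates G F →
        ¬ ContinuousInTime G) ∧
    ¬ ∀ f ∈ Supp classS0, HasContinuousSupportField f := by
  have main : ∀ (G : EuclideanSpace ℂ (Fin 2) → ℝ → EuclideanSpace ℂ (Fin 2))
      (F : ℝ → EuclideanSpace ℂ (Fin 2) → EuclideanSpace ℂ (Fin 2)),
      IsHerglotzField G → IsNormalLoewnerChain F →
      (∀ z ∈ ball (0 : EuclideanSpace ℂ (Fin 2)) 1, F 0 z = Pool.Agent.Helper540.Fc 0 z) →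
      Generates G F → ¬ ContinuousInTime G := by
    intro G F hG hF h0 hgen hcont
    exact Pool.Agent.Helper540.no_gen (gen_of hG hF hgen hcont) h0
  refine ⟨⟨Pool.Agent.Helper540.Fc 0, Fc_supp, main⟩, fun hall => ?_⟩
  obtain ⟨G, F, hG, hF, h0, hgen, hcont, -⟩ := hall _ Fc_supp
  exact main G F hG hF h0 hgen hcont

end Pool.Agent.Results.MP_10a7b3_an.NoContinuous
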